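import Pool.Agent.Helper89.SP.Defs
import Pool.Agent.Helper89.FA.Main

/-!
SP-13a: the node `t = 1.04`, all coordinates at most `0.41`.
-/

set_option autoImplicit false

open MeasureTheory Set Real Slab
open Pool.Agent.Helper88.Slab (prob exp_neg_ge7 exp_neg_le)

namespace Pool.Agent.Helper89.SP

namespace Node104

open Pool.Agent.Helper89.FA Pool.Agent.Helper89.FA.CaseB Pool.Agent.Helper89.FA.TailB

/-- The one-variable inequality at the node `1.04`. -/
theorem node_num {w Q : ℝ} (hw1 : 2.281249 ≤ w) (hw2 : w ≤ 2.281253) (hQ0 : 0 ≤ Q)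
    (hQ1 : Q ≤ 0.875) :
    0.67283 ≤ exp (-(w / 6 + 0.006 * Q)) -
      exp (-(3 / 2 * w + 9 / 20 * Q + 9 / 35 * (Q ^ 2 / w))) / 3 := by
  have hA : (0.6837186 : ℝ) ≤ exp (-(2.281253 / 6)) := by
    have := exp_neg_ge7 (2.281253 / 6) (by norm_num)
    refine le_trans ?_ this
    norm_num
  have hB : exp (-(3 / 2 * (2.281249 : ℝ))) / 3 ≤ 0.0108838 := by
    have h1 := exp_neg_one_lt_d9
    have h2 := exp_neg_le 0.1406245 (by norm_num)
    have h3 : exp (-(3 / 2 * (2.281249 : ℝ))) = exp (-1) ^ 3 * exp (-0.1406245) ^ 3 := by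
      rw [← exp_nat_mul, ← exp_nat_mul, ← exp_add]
      congr 1
      norm_num
    have h4 : exp (-1) ^ 3 ≤ 0.3678794412 ^ 3 := pow_le_pow_left₀ (exp_pos _).le h1.le 3
    have h5 : exp (-0.1406245) ^ 3 ≤
        (1 - 0.1406245 + 0.1406245^2/2 - 0.1406245^3/6 + 0.1406245^4/24) ^ 3 :=
      pow_le_pow_left₀ (exp_pos _).le h2 3
    have h6 : exp (-1) ^ 3 * exp (-0.1406245) ^ 3 ≤ 0.3678794412 ^ 3 *
        (1 - 0.1406245 + 0.1406245^2/2 - 0.1406245^3/6 + 0.1406245^4/24) ^ 3 :=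
      mul_le_mul h4 h5 (by positivity) (by positivity)
    rw [h3]
    have h7 : (0.3678794412 : ℝ) ^ 3 *
        (1 - 0.1406245 + 0.1406245^2/2 - 0.1406245^3/6 + 0.1406245^4/24) ^ 3 / 3 ≤
      0.0108838 := by norm_num
    linarith
  refine node_aux (w1 := 2.281249) (w2 := 2.281253) (A := 0.6837186) (B := 0.0108838)
    (c := 0.1127) hw1 hw2 (by norm_num) hQ0 (by norm_num) hA hB (by norm_num) (by norm_num) ?_
  have hR : 0 ≤ 0.875 - Q := by linarith
  have key : 0.6837186 * (1 - (0.006 * Q) + (0.006 * Q) ^ 2 / 2 - (0.006 * Q) ^ 3 / 6) -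
      0.0108838 * (1 - (9 / 20 * Q + 0.1127 * Q ^ 2) + (9 / 20 * Q + 0.1127 * Q ^ 2) ^ 2 / 2 -
        (9 / 20 * Q + 0.1127 * Q ^ 2) ^ 3 / 6 + (9 / 20 * Q + 0.1127 * Q ^ 2) ^ 4 / 24) - 0.67283 =
      (6291456/450375078125) * Q^0 * (0.875-Q)^8 + (120319770624/56296884765625) * Q^1 * (0.875-Q)^7 + (14953470564352/1005301513671875) * Q^2 * (0.875-Q)^6 + (5578676464763448/125662689208984375) * Q^3 * (0.875-Q)^5 + (58499501967189889/804241210937500000) * Q^4 * (0.875-Q)^4 + (567024791572025861/8042412109375000000) * Q^5 * (0.875-Q)^3 + (31181574986667592201103/772071562500000000000000) * Q^6 * (0.875-Q)^2 + (5466329541338182293776261/432360075000000000000000000) * Q^7 * (0.875-Q)^1 + (11513300277869177166779550221/6917761200000000000000000000000) * Q^8 * (0.875-Q)^0 := by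
    ring
  have hpos : 0 ≤ (6291456/450375078125) * Q^0 * (0.875-Q)^8 + (120319770624/56296884765625) * Q^1 * (0.875-Q)^7 + (14953470564352/1005301513671875) * Q^2 * (0.875-Q)^6 + (5578676464763448/125662689208984375) * Q^3 * (0.875-Q)^5 + (58499501967189889/804241210937500000) * Q^4 * (0.875-Q)^4 + (567024791572025861/8042412109375000000) * Q^5 * (0.875-Q)^3 + (31181574986667592201103/772071562500000000000000) * Q^6 * (0.875-Q)^2 + (5466329541338182293776261/432360075000000000000000000) * Q^7 * (0.875-Q)^1 + (11513300277869177166779550221/6917761200000000000000000000000) * Q^8 * (0.875-Q)^0 := by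
    positivity
  linarith

/-- The series, keeping the fifth harmonic as a nonnegative term. -/
theorem series_ge3 {n : ℕ} (x : Fin n → ℝ) {e7 e9 F : ℝ}
    (h5 : 0 ≤ ∏ j, sinc (5 * x j))
    (h7 : |∏ j, sinc (7 * x j)| ≤ e7) (h9 : |∏ j, sinc (9 * x j)| ≤ e9)
    (hF : Summable (fun k : ℕ => |∏ j, sinc ((2 * ((k + 5 : ℕ) : ℝ) + 1) * x j)| /
        (2 * ((k + 5 : ℕ) : ℝ) + 1)) ∧
      ∑' k : ℕ, |∏ j, sinc ((2 * ((k + 5 : ℕ) : ℝ) + 1) * x j)| /
        (2 * ((k + 5 : ℕ) : ℝ) + 1) ≤ F) :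
    (∏ j, sinc (x j)) - (∏ j, sinc (3 * x j)) / 3 - (e7 / 7 + e9 / 9 + F) ≤
      ∑' k : ℕ, (-1 : ℝ) ^ k * ((∏ j, sinc ((2 * (k : ℝ) + 1) * x j)) / (2 * (k : ℝ) + 1)) := by
  set f : ℕ → ℝ := fun k => (-1 : ℝ) ^ k *
    ((∏ j, sinc ((2 * (k : ℝ) + 1) * x j)) / (2 * (k : ℝ) + 1)) with hf
  have habs : ∀ k : ℕ, ‖f (k + 5)‖ =
      |∏ j, sinc ((2 * ((k + 5 : ℕ) : ℝ) + 1) * x j)| / (2 * ((k + 5 : ℕ) : ℝ) + 1) := by
    intro k
    rw [hf]
    simp only [Real.norm_eq_abs, abs_mul, abs_pow, abs_neg, abs_one, one_pow, one_mul, abs_div]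
    congr 1
    exact abs_of_pos (by positivity)
  have hs1 : Summable (fun k : ℕ => ‖f (k + 5)‖) := hF.1.congr (fun k => (habs k).symm)
  have hs2 : Summable (fun k : ℕ => f (k + 5)) := hs1.of_norm
  have hs3 : Summable f := (summable_nat_add_iff 5).mp hs2
  have e1 : ∑ k ∈ Finset.range 5, f k + ∑' k, f (k + 5) = ∑' k, f k :=
    hs3.sum_add_tsum_nat_add 5
  have e2 : ‖∑' k, f (k + 5)‖ ≤ ∑' k, ‖f (k + 5)‖ := norm_tsum_le_tsum_norm hs1
  have e3 : ∑' k, ‖f (k + 5)‖ ≤ F := by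
    rw [tsum_congr habs]
    exact hF.2
  have e4 : -F ≤ ∑' k, f (k + 5) := by
    have := neg_abs_le (∑' k, f (k + 5))
    rw [Real.norm_eq_abs] at e2
    linarith
  have e5 : ∑ k ∈ Finset.range 5, f k = (∏ j, sinc (x j)) - (∏ j, sinc (3 * x j)) / 3 +
      (∏ j, sinc (5 * x j)) / 5 - (∏ j, sinc (7 * x j)) / 7 + (∏ j, sinc (9 * x j)) / 9 := by
    rw [Finset.sum_range_succ, Finset.sum_range_succ, Finset.sum_range_succ,
      Finset.sum_range_succ, Finset.sum_range_one, hf]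
    norm_num
    ring
  rw [← e1, e5]
  have a7 := le_abs_self (∏ j, sinc (7 * x j))
  have a9 := neg_abs_le (∏ j, sinc (9 * x j))
  linarith

/-- The series at the node. -/
theorem series_104 {n : ℕ} (x : Fin n → ℝ) {w : ℝ} (hw : ∑ j, x j ^ 2 = w)
    (hw1 : 2.281249 ≤ w) (hw2 : w ≤ 2.281253) (hm : ∀ j, |x j| ≤ 0.61926) :
    0.67278 ≤ ∑' k : ℕ, (-1 : ℝ) ^ k *
      ((∏ j, sinc ((2 * (k : ℝ) + 1) * x j)) / (2 * (k : ℝ) + 1)) := by
  obtain ⟨p1, p2⟩ := pi_b
  have hQ0 : 0 ≤ ∑ j, x j ^ 4 := by positivity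
  have hQ1 : ∑ j, x j ^ 4 ≤ 0.875 := by
    refine (Q_small x hw hm).trans ?_
    have : w * (0.61926 : ℝ) ^ 2 ≤ 2.281253 * 0.61926 ^ 2 :=
      mul_le_mul_of_nonneg_right hw2 (by positivity)
    norm_num at this ⊢
    linarith
  have hw0 : (2.281249 : ℝ) ≤ ∑ j, x j ^ 2 := by rw [hw]; exact hw1
  have h5 : 0 ≤ ∏ j, sinc (5 * x j) := by
    apply Finset.prod_nonneg
    intro j _
    apply Pool.Agent.Helper88.Slab.sinc_nonneg
    rw [abs_mul]
    norm_num
    linarith [hm j]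
  have q7 := prod_all x (K := 7) (by norm_num) (c := 0.08) (by norm_num) hw0 hm
    (fun z hz => abs_sinc_435 (by linarith))
  have q9 := prod_all x (K := 9) (by norm_num) (c := 0.045) (by norm_num) hw0 hm
    (fun z hz => abs_sinc_707 (by linarith))
  have e7 : exp (-(0.08 * 7 ^ 2 * 2.281249)) ≤ (0.000133 : ℝ) :=
    exp_neg_bd 8 (f := 0.9424) (by norm_num) (by norm_num) (by norm_num)
  have e9 : exp (-(0.045 * 9 ^ 2 * 2.281249)) ≤ (0.000246 : ℝ) :=
    exp_neg_bd 8 (f := 0.3151) (by norm_num) (by norm_num) (by norm_num)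
  have hfar := far_all x hw0 hm (by linarith) (by norm_num)
  have hfar2 : exp (-(2.281249 / (0.61926 : ℝ) ^ 2 - 3) * log (11 * 0.61926)) /
      (6000 * (0.61926 : ℝ) ^ 3) ≤ 0.0000027 := by
    have hlog : (1.9 : ℝ) ≤ log (11 * 0.61926) := by
      rw [Real.le_log_iff_exp_le (by norm_num)]
      have : exp (1.9 : ℝ) = exp 1 ^ 2 * exp (-0.1) := by
        rw [← Real.exp_nat_mul, ← Real.exp_add]; norm_num
      rw [this]
      have h9 := Real.exp_one_lt_d9
      have h10 := exp_neg_le 0.1 (by norm_num)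
      have h11 : (exp 1) ^ 2 ≤ (2.7182818286 : ℝ) ^ 2 :=
        pow_le_pow_left₀ (exp_pos _).le h9.le 2
      have h12 := mul_le_mul h11 h10 (exp_pos _).le (by positivity)
      refine h12.trans ?_
      norm_num
    have h1 : exp (-(2.281249 / (0.61926 : ℝ) ^ 2 - 3) * log (11 * 0.61926)) ≤ 0.00371 := by
      have hq : (2.948 : ℝ) ≤ 2.281249 / (0.61926 : ℝ) ^ 2 - 3 := by
        rw [le_sub_iff_add_le, le_div_iff₀ (by norm_num)]
        norm_num
      refine le_trans (Real.exp_le_exp.mpr ?_)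
        (exp_neg_bd 5 (a := 5.6012) (f := 0.6012) (by norm_num) (by norm_num) (by norm_num))
      have := mul_le_mul hq hlog (by norm_num) (by linarith)
      norm_num at this ⊢
      linarith
    rw [div_le_iff₀ (by norm_num)]
    refine h1.trans ?_
    norm_num
  have s := series_ge3 x h5 (q7.trans e7) (q9.trans e9) ⟨hfar.1, hfar.2.trans hfar2⟩
  have a1 := phi0_ge x (c := 0.006) hw (fun j => sinc_ge_a ((hm j).trans (by norm_num)))
  have a2 := phi1_le x hw (by linarith) (fun j => by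
    rw [abs_mul]
    norm_num
    linarith [hm j])
  have a3 := node_num hw1 hw2 hQ0 hQ1
  norm_num at s ⊢
  linarith

lemma exp_small {t : ℝ} (ht : 1.04 ≤ t) : exp (-(27 / 2) * t ^ 2) ≤ 0.0000008 := by
  have h1 : exp (-(27 / 2) * t ^ 2) ≤ exp (-(14.6)) := by
    apply Real.exp_le_exp.mpr
    nlinarith
  exact h1.trans (exp_neg_bd 14 (f := 0.6) (by norm_num) (by norm_num) (by norm_num))

end Node104

open Node104 in
/-- SP-13a. -/
theorem node104 {n : ℕ} (a : Fin n → ℝ) (ha : ∑ j, a j ^ 2 = 1) (h41 : ∀ j, |a j| ≤ 0.41) :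
    1 - (3 - √3 * 1.04) ^ 3 / 24 + 0.00006 ≤ prob a 1.04 := by
  obtain ⟨i, hi, -⟩ := Pool.Agent.Helper89.FA.max_coord a ha
  have hθl : 1.5103807 ≤ π / (2 * 1.04) := by
    rw [le_div_iff₀ (by positivity)]
    nlinarith [Real.pi_gt_d6]
  have hθr : π / (2 * 1.04) ≤ 1.5103813 := by
    rw [div_le_iff₀ (by positivity)]
    nlinarith [Real.pi_lt_d6]
  have e1 : ∑ j, (a j * (π / (2 * 1.04))) ^ 2 = (π / (2 * 1.04)) ^ 2 := by
    simp_rw [mul_pow]
    rw [← Finset.sum_mul, ha, one_mul]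
  have hs := series_104 (fun j => a j * (π / (2 * 1.04))) e1
    (by nlinarith) (by nlinarith) (fun j => by
      rw [abs_mul, abs_of_pos (by positivity : (0:ℝ) < π / (2 * 1.04))]
      have := h41 j
      have h0 := abs_nonneg (a j)
      nlinarith)
  have h3 := Pool.Agent.Helper89.FA.wave_lower a ha hi (by norm_num) hs
  refine le_trans ?_ h3
  have h4 := Node104.exp_small (le_refl (1.04 : ℝ))
  have h5 : 0.63661968 ≤ 2 / π := by
    rw [le_div_iff₀ Real.pi_pos]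
    nlinarith [Real.pi_lt_d6]
  obtain ⟨h3a, h3b⟩ := Pool.Agent.Helper89.FA.sqrt3_b
  have h6 : 1.198667 ≤ 3 - √3 * 1.04 := by linarith
  have h7 : (1.198667:ℝ) ^ 3 ≤ (3 - √3 * 1.04) ^ 3 := pow_le_pow_left₀ (by norm_num) h6 3
  norm_num at h7 h4 ⊢
  nlinarith

end Pool.Agent.Helper89.SP
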